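import Pool.Agent.Helper70.KN.Goals4

/-!
# Project KN (MP_20ee5e_ag), packet HO: volume below a homogeneous function
-/

set_option autoImplicit false

open MeasureTheory Set Filter Topology

namespace Pool.Agent.Helper71.KN.HO

open Pool.Agent.Helper70.KN

theorem cont_zr {N : ℕ} (J : Finset (Fin N)) : Continuous (zr J : (Fin N → ℝ) → Fin N → ℝ) := by
  refine continuous_pi fun i => ?_
  unfold zr
  by_cases h : i ∈ J
  · simp only [h, if_true]
    exact continuous_const
  · simp only [h, if_false]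
    exact continuous_apply i

theorem prodD {N : ℕ} (j : Fin N) (c : ℝ) :
    ∏ i : Fin N, (if i = j then (1 : ℝ) else c) = c ^ (N - 1) := by
  rw [← Finset.mul_prod_erase Finset.univ _ (Finset.mem_univ j)]
  have h : ∏ i ∈ Finset.univ.erase j, (if i = j then (1 : ℝ) else c) =
      ∏ i ∈ Finset.univ.erase j, c := by
    refine Finset.prod_congr rfl fun i hi => ?_
    rw [if_neg (Finset.ne_of_mem_erase hi)]
  rw [h, if_pos rfl, one_mul, Finset.prod_const, Finset.card_erase_of_mem (Finset.mem_univ j),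
    Finset.card_univ, Fintype.card_fin]

/-- the statement of HO for `N ≥ 2` -/
theorem t' (hMF : S_MF) (hSC : S_SC) (hRH : S_RH) :
    ∀ (N : ℕ), 2 ≤ N → ∀ (V : Finset (Fin N → ℕ)) (L : Set (Fin N → ℝ)) (ω : ℝ), Cut V L ω →
  ∀ (j : Fin N) (q : (Fin N → ℝ) → ℝ), Measurable q → (∀ x, 0 ≤ q x ∧ q x ≤ 1) →
    (∀ x (c : ℝ), 0 < c → q (fun k => if k = j then x k else c * x k) = q x) →
    ∫⁻ x in cyl V {j}, ENNReal.ofReal (q x ^ (N - 1)) ≤
      volume {x : Fin N → ℝ | 0 ≤ x ∧ x j < 1 ∧ rho L (zr {j} x) < q x} := by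
  classical
  intro N hN V L ω hcut j q hq hq01 hinv
  obtain ⟨-, -, hnew, hhom, -, -, hcont⟩ := hRH N V L ω hcut
  obtain ⟨hCm, -, -⟩ := hMF N V hcut.1 {j}
  set F : Set (Fin N → ℝ) := {x | 0 ≤ x ∧ x j < 1 ∧ rho L (zr {j} x) < q x} with hF
  -- the approximations
  have hfloor : ∀ K : ℕ, Measurable fun x : Fin N → ℝ => ⌊q x * (K + 1 : ℝ)⌋₊ := fun K =>
    Nat.measurable_floor.comp (hq.mul_const _)
  have main : ∀ K : ℕ, ∫⁻ x in cyl V {j},
      ENNReal.ofReal (((⌊q x * (K + 1 : ℝ)⌋₊ : ℝ) / (K + 1 : ℝ)) ^ (N - 1)) ≤ volume F := by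
    intro K
    have hK : (0 : ℝ) < (K + 1 : ℝ) := by positivity
    set A : ℕ → Set (Fin N → ℝ) := fun l => {x | ⌊q x * (K + 1 : ℝ)⌋₊ = l} with hA
    have hAm : ∀ l, MeasurableSet (A l) := fun l => hfloor K (measurableSet_singleton l)
    set S : ℕ → Set (Fin N → ℝ) := fun l =>
      {x | 0 ≤ x ∧ x j < 1 ∧ rho L (zr {j} x) < (l : ℝ) / (K + 1 : ℝ)} ∩ A l with hS
    have hSm : ∀ l, MeasurableSet (S l) := by
      intro l
      refine MeasurableSet.inter ?_ (hAm l)
      have h1 : MeasurableSet {x : Fin N → ℝ | 0 ≤ x} := isClosed_Ici.measurableSet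
      have h2 : MeasurableSet {x : Fin N → ℝ | x j < 1} :=
        measurableSet_lt (measurable_pi_apply j) measurable_const
      have h3 : MeasurableSet {x : Fin N → ℝ | rho L (zr {j} x) < (l : ℝ) / (K + 1 : ℝ)} :=
        measurableSet_lt (hcont.comp (cont_zr {j})).measurable measurable_const
      exact h1.inter (h2.inter h3)
    -- the function is a finite sum of indicators
    have hfun : ∀ x : Fin N → ℝ,
        ENNReal.ofReal (((⌊q x * (K + 1 : ℝ)⌋₊ : ℝ) / (K + 1 : ℝ)) ^ (N - 1)) =
        ∑ l ∈ Finset.range (K + 2), (A l).indicator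
          (fun _ => ENNReal.ofReal (((l : ℝ) / (K + 1 : ℝ)) ^ (N - 1))) x := by
      intro x
      have hle : ⌊q x * (K + 1 : ℝ)⌋₊ < K + 2 := by
        have h1 : q x * (K + 1 : ℝ) ≤ ((K + 1 : ℕ) : ℝ) := by
          push_cast
          nlinarith [(hq01 x).2]
        have h2 : ⌊q x * (K + 1 : ℝ)⌋₊ ≤ K + 1 := by
          have := Nat.floor_le_floor h1
          rwa [Nat.floor_natCast] at this
        omega
      rw [Finset.sum_eq_single_of_mem (⌊q x * (K + 1 : ℝ)⌋₊) (Finset.mem_range.mpr hle)]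
      · rw [indicator_of_mem (show x ∈ A (⌊q x * (K + 1 : ℝ)⌋₊) from rfl)]
      · intro l _ hl
        rw [indicator_of_notMem]
        intro hx
        exact hl (show l = _ from (show ⌊q x * (K + 1 : ℝ)⌋₊ = l from hx).symm)
    have hint : ∫⁻ x in cyl V {j},
        ENNReal.ofReal (((⌊q x * (K + 1 : ℝ)⌋₊ : ℝ) / (K + 1 : ℝ)) ^ (N - 1)) =
        ∑ l ∈ Finset.range (K + 2), ENNReal.ofReal (((l : ℝ) / (K + 1 : ℝ)) ^ (N - 1)) *
          volume (A l ∩ cyl V {j}) := by
      simp only [hfun]
      rw [lintegral_finsetSum]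
      · refine Finset.sum_congr rfl fun l _ => ?_
        rw [lintegral_indicator_const (hAm l), Measure.restrict_apply (hAm l)]
      · intro l _
        exact measurable_const.indicator (hAm l)
    rw [hint]
    have hterm : ∀ l ∈ Finset.range (K + 2),
        ENNReal.ofReal (((l : ℝ) / (K + 1 : ℝ)) ^ (N - 1)) * volume (A l ∩ cyl V {j}) ≤
          volume (S l) := by
      intro l _
      rcases Nat.eq_zero_or_pos l with h0 | h0
      · subst h0
        have h1 : ((0 : ℕ) : ℝ) / (K + 1 : ℝ) = 0 := by simp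
        rw [h1, zero_pow (by omega), ENNReal.ofReal_zero, zero_mul]
        exact bot_le
      · have hl : (0 : ℝ) < l := by exact_mod_cast h0
        have hc : 0 < (l : ℝ) / (K + 1 : ℝ) := by positivity
        rw [hSC N (S l) (fun i => if i = j then 1 else (l : ℝ) / (K + 1 : ℝ)) (hSm l)
          (fun i => by
            by_cases hi : i = j
            · simp [hi]
            · simp only [hi, if_false]
              exact hc), prodD]
        refine mul_le_mul_right (measure_mono ?_) _
        rintro x ⟨hxA, hx0, hxj, hxn⟩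
        have hz : (0 : Fin N → ℝ) ≤ zr {j} x := by
          intro i
          unfold zr
          split_ifs
          · exact le_refl _
          · exact hx0 i
        have hr : rho L (zr {j} x) < 1 := by
          by_contra hcon
          exact hxn ((hnew _ hz).mpr (not_lt.mp hcon))
        have hDx : (fun i => (if i = j then (1 : ℝ) else (l : ℝ) / (K + 1 : ℝ)) * x i) =
            fun k => if k = j then x k else (l : ℝ) / (K + 1 : ℝ) * x k := by
          funext k
          split_ifs
          · rw [one_mul]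
          · rfl
        show (fun i => (if i = j then (1 : ℝ) else (l : ℝ) / (K + 1 : ℝ)) * x i) ∈ S l
        rw [hDx]
        refine ⟨⟨fun k => ?_, ?_, ?_⟩, ?_⟩
        · show 0 ≤ (if k = j then x k else (l : ℝ) / (K + 1 : ℝ) * x k)
          split_ifs
          · exact hx0 k
          · exact mul_nonneg hc.le (hx0 k)
        · simp only [if_true]
          exact hxj j (Finset.mem_singleton_self j)
        · have h2 : zr {j} (fun k => if k = j then x k else (l : ℝ) / (K + 1 : ℝ) * x k) =
              fun k => (l : ℝ) / (K + 1 : ℝ) * zr {j} x k := by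
            funext k
            unfold zr
            by_cases hk : k = j
            · simp [hk]
            · simp [hk]
          rw [h2, hhom _ _ hc.le]
          calc (l : ℝ) / (K + 1 : ℝ) * rho L (zr {j} x) < (l : ℝ) / (K + 1 : ℝ) * 1 :=
                mul_lt_mul_of_pos_left hr hc
            _ = _ := mul_one _
        · show ⌊q (fun k => if k = j then x k else (l : ℝ) / (K + 1 : ℝ) * x k) *
            (K + 1 : ℝ)⌋₊ = l
          rw [hinv x _ hc]
          exact hxA
    refine (Finset.sum_le_sum hterm).trans ?_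
    rw [← measure_biUnion_finset (fun l _ l' _ hll => ?_) (fun l _ => hSm l)]
    · refine measure_mono ?_
      intro x hx
      simp only [mem_iUnion] at hx
      obtain ⟨l, _, ⟨hx0, hxj, hxr⟩, hxA⟩ := hx
      refine ⟨hx0, hxj, hxr.trans_le ?_⟩
      rw [div_le_iff₀ hK]
      have h1 : (⌊q x * (K + 1 : ℝ)⌋₊ : ℝ) ≤ q x * (K + 1 : ℝ) :=
        Nat.floor_le (mul_nonneg (hq01 x).1 hK.le)
      have h2 : ⌊q x * (K + 1 : ℝ)⌋₊ = l := hxA
      rw [h2] at h1
      exact h1
    · show Disjoint (S l) (S l')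
      rw [Set.disjoint_left]
      rintro x ⟨_, h1⟩ ⟨_, h2⟩
      exact hll ((show ⌊q x * (K + 1 : ℝ)⌋₊ = l from h1).symm.trans h2)
  -- Fatou
  have hlim : ∀ x : Fin N → ℝ, Tendsto (fun K : ℕ =>
      ENNReal.ofReal (((⌊q x * (K + 1 : ℝ)⌋₊ : ℝ) / (K + 1 : ℝ)) ^ (N - 1))) atTop
      (𝓝 (ENNReal.ofReal (q x ^ (N - 1)))) := by
    intro x
    refine (ENNReal.continuous_ofReal.tendsto _).comp (Tendsto.pow ?_ _)
    have h1 := tendsto_nat_floor_mul_div_atTop (R := ℝ) (hq01 x).1
    have h2 : Tendsto (fun K : ℕ => (K + 1 : ℝ)) atTop atTop :=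
      tendsto_atTop_add_const_right _ _ tendsto_natCast_atTop_atTop
    exact h1.comp h2
  calc ∫⁻ x in cyl V {j}, ENNReal.ofReal (q x ^ (N - 1))
      = ∫⁻ x in cyl V {j}, liminf (fun K : ℕ =>
        ENNReal.ofReal (((⌊q x * (K + 1 : ℝ)⌋₊ : ℝ) / (K + 1 : ℝ)) ^ (N - 1))) atTop := by
        refine lintegral_congr fun x => ?_
        exact (hlim x).liminf_eq.symm
    _ ≤ liminf (fun K : ℕ => ∫⁻ x in cyl V {j},
        ENNReal.ofReal (((⌊q x * (K + 1 : ℝ)⌋₊ : ℝ) / (K + 1 : ℝ)) ^ (N - 1))) atTop := by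
        refine lintegral_liminf_le fun K => ?_
        have h1 : Measurable fun x : Fin N → ℝ => ((⌊q x * (K + 1 : ℝ)⌋₊ : ℕ) : ℝ) :=
          measurable_from_top.comp (hfloor K)
        exact ENNReal.measurable_ofReal.comp ((h1.div_const _).pow_const _)
    _ ≤ volume F := by
        refine liminf_le_of_frequently_le' ?_
        exact Frequently.of_forall fun K => main K

/-- HO -/
theorem t (hMF : S_MF) (hSC : S_SC) (hRH : S_RH) : S_HO := t' hMF hSC hRH

end Pool.Agent.Helper71.KN.HO
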